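import Pool.Agent.N303.LS.Stm3
import Pool.Agent.N413.LS.BES
import Pool.Agent.N558.LS.MUL
import Pool.Agent.N27.LS.PEE

/-!
# Project LM (helper303), leaf HN: the heat flow and the local energy (helper951)
-/

set_option autoImplicit false

namespace Pool.Agent.N951.LS

open MeasureTheory Pool.Agent.N303.LS Pool.Agent.N413.LSBES
open scoped ENNReal FourierTransform RealInnerProductSpace SchwartzMap

/-- averages of translations and the local energy -/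
theorem avg {d : ℕ} {Ω : Type} [MeasurableSpace Ω] (μ : Measure Ω) [SFinite μ] (y : Ω → E d)
    (κ : Ω → ℂ) (hy : Measurable y) (hκ : Measurable κ) (g : 𝓢(E d, ℂ)) (f : E d → ℂ)
    (hf : ∀ x, f x = ∫ q, κ q * g (x - y q) ∂μ) (M : ℕ) (v : ℝ) (hv : 0 ≤ v) (c : Ω → ℝ)
    (hcm : Measurable c) (hc : ∀ q, 1 + ‖y q‖ ^ 2 ≤ (1 + v) * c q) (x : E d) :
    nrg M f x ≤ (∫⁻ q, ‖κ q‖ₑ ∂μ) * ((∫⁻ q, ‖κ q‖ₑ * ENNReal.ofReal (c q ^ M) ∂μ) *
      ENNReal.ofReal (2 ^ M * (1 + v) ^ M)) * nrg M g x := by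
  have hgm : Measurable (g : E d → ℂ) := g.continuous.measurable
  have hk : Measurable (fun q => ‖κ q‖ₑ) := hκ.enorm
  have h1 : ∀ z : E d, ‖f z‖ₑ ^ (2 : ℝ) ≤ (∫⁻ q, ‖κ q‖ₑ ∂μ) *
      ∫⁻ q, ‖κ q‖ₑ * ‖g (z - y q)‖ₑ ^ (2 : ℝ) ∂μ := by
    intro z
    rw [hf z]
    have h2 : ‖∫ q, κ q * g (z - y q) ∂μ‖ₑ ≤ ∫⁻ q, ‖κ q‖ₑ * ‖g (z - y q)‖ₑ ∂μ := by
      refine (enorm_integral_le_lintegral_enorm _).trans (le_of_eq ?_)
      refine lintegral_congr fun q => ?_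
      rw [enorm_mul]
    refine (ENNReal.rpow_le_rpow h2 (by norm_num)).trans
      ((Pool.Agent.N558.LS.jensen μ _ hk (fun q => g (z - y q))
        (hgm.comp (measurable_const.sub hy)) (by norm_num : (1 : ℝ) ≤ 2)).trans (le_of_eq ?_))
    norm_num
  have hG : Measurable (fun z : E d × Ω => g (z.1 - y z.2)) :=
    hgm.comp (measurable_fst.sub (hy.comp measurable_snd))
  have hW : Measurable (fun z : E d => ENNReal.ofReal (W M (z - x))) :=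
    ENNReal.measurable_ofReal.comp ((Pool.Agent.N27.LS.W_cont M).comp (by fun_prop)).measurable
  have hm2 : Measurable (fun z : E d × Ω => ‖κ z.2‖ₑ * ‖g (z.1 - y z.2)‖ₑ ^ (2 : ℝ) *
      ENNReal.ofReal (W M (z.1 - x))) :=
    ((hk.comp measurable_snd).mul (hG.enorm.pow_const _)).mul (hW.comp measurable_fst)
  have h3 : nrg M f x ≤ (∫⁻ q, ‖κ q‖ₑ ∂μ) *
      ∫⁻ z : E d, ∫⁻ q, ‖κ q‖ₑ * ‖g (z - y q)‖ₑ ^ (2 : ℝ) * ENNReal.ofReal (W M (z - x)) ∂μ := by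
    unfold nrg
    rw [← lintegral_const_mul _ hm2.lintegral_prod_right']
    refine lintegral_mono fun z => ?_
    have hm3 : Measurable (fun q => ‖κ q‖ₑ * ‖g (z - y q)‖ₑ ^ (2 : ℝ)) :=
      hk.mul ((hgm.comp (measurable_const.sub hy)).enorm.pow_const _)
    dsimp only
    rw [lintegral_mul_const _ hm3, ← mul_assoc]
    gcongr
    exact h1 z
  refine h3.trans ?_
  rw [lintegral_lintegral_swap hm2.aemeasurable]
  have h4 : ∀ q, ∫⁻ z : E d, ‖κ q‖ₑ * ‖g (z - y q)‖ₑ ^ (2 : ℝ) * ENNReal.ofReal (W M (z - x)) ≤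
      ‖κ q‖ₑ * ENNReal.ofReal (c q ^ M) * (ENNReal.ofReal (2 ^ M * (1 + v) ^ M) *
        nrg M g x) := by
    intro q
    have e1 : ∫⁻ z : E d, ‖κ q‖ₑ * ‖g (z - y q)‖ₑ ^ (2 : ℝ) * ENNReal.ofReal (W M (z - x)) =
        ‖κ q‖ₑ * nrg M g (x - y q) := by
      unfold nrg
      have e2 : Measurable (fun z : E d => ‖g z‖ₑ ^ (2 : ℝ) *
          ENNReal.ofReal (W M (z - (x - y q)))) := by
        refine (hgm.enorm.pow_const _).mul ?_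
        exact ENNReal.measurable_ofReal.comp
          ((Pool.Agent.N27.LS.W_cont M).comp (by fun_prop)).measurable
      rw [← lintegral_const_mul _ e2,
        ← lintegral_sub_right_eq_self (fun z : E d => ‖κ q‖ₑ * (‖g z‖ₑ ^ (2 : ℝ) *
          ENNReal.ofReal (W M (z - (x - y q))))) (y q)]
      refine lintegral_congr fun z => ?_
      rw [mul_assoc]
      congr 4
      abel_nf
    rw [e1, mul_assoc]
    gcongr
    refine (Pool.Agent.N27.LS.nrg_le M g (x - y q) x).trans ?_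
    rw [← mul_assoc]
    gcongr
    rw [← ENNReal.ofReal_mul' (by positivity)]
    refine ENNReal.ofReal_le_ofReal ?_
    have e3 : x - y q - x = - y q := by abel
    rw [e3, norm_neg, ← mul_pow, ← mul_pow]
    refine pow_le_pow_left₀ (by positivity) ?_ M
    have := hc q
    linarith
  refine (mul_le_mul_right (lintegral_mono h4) _).trans (le_of_eq ?_)
  have hm5 : Measurable (fun q => ‖κ q‖ₑ * ENNReal.ofReal (c q ^ M)) :=
    hk.mul (ENNReal.measurable_ofReal.comp (hcm.pow_const M))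
  rw [lintegral_mul_const _ hm5]
  ring

/-- a multiplier which is an average of translations -/
theorem rep {d : ℕ} {Ω : Type} [MeasurableSpace Ω] (μ : Measure Ω) [SFinite μ] (y : Ω → E d)
    (κ : Ω → ℂ) (hy : Measurable y) (hκ : Integrable κ μ) (g f : 𝓢(E d, ℂ)) (m : E d → ℂ)
    (hm : ∀ ξ, ∫ q, Complex.exp (((-(2 * Real.pi * ⟪y q, ξ⟫) : ℝ) : ℂ) * Complex.I) * κ q ∂μ = m ξ)
    (hF : ∀ ξ, 𝓕 (f : E d → ℂ) ξ = m ξ * 𝓕 (g : E d → ℂ) ξ) (x : E d) :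
    f x = ∫ q, κ q * g (x - y q) ∂μ := by
  rw [← Pool.Agent.N558.LS.inv_mul_eq μ y κ hy hκ g x]
  have h1 : (fun ξ => (∫ q, Complex.exp (((-(2 * Real.pi * ⟪y q, ξ⟫) : ℝ) : ℂ) * Complex.I) *
      κ q ∂μ) * 𝓕 (g : E d → ℂ) ξ) = 𝓕 (f : E d → ℂ) := by
    funext ξ
    rw [hm, hF]
  rw [h1, Pool.Agent.N558.LS.inv_fou]

theorem four_dj {d : ℕ} (j : Fin d) (h : 𝓢(E d, ℂ)) (ξ : E d) :
    𝓕 (dj j h : E d → ℂ) ξ = ((2 * Real.pi * ξ j : ℝ) : ℂ) * Complex.I *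
      𝓕 (h : E d → ℂ) ξ := by
  have e3 : 𝓕 (dj j h : E d → ℂ) ξ = (𝓕 (dj j h) : 𝓢(E d, ℂ)) ξ := by rw [SchwartzMap.fourier_coe]
  rw [e3]
  unfold dj
  have ht : (fun x : E d => inner ℝ x (EuclideanSpace.single j (1 : ℝ))).HasTemperateGrowth :=
    ((innerSL ℝ).flip (EuclideanSpace.single j (1 : ℝ))).hasTemperateGrowth
  rw [SchwartzMap.fourier_lineDerivOp_eq]
  simp only [smul_apply, SchwartzMap.smulLeftCLM_apply_apply ht]
  rw [SchwartzMap.fourier_coe]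
  have h3 : inner ℝ ξ (EuclideanSpace.single j (1 : ℝ)) = ξ j := by
    simp [EuclideanSpace.inner_single_right]
  rw [h3, smul_eq_mul, Complex.real_smul]
  push_cast
  ring

/-- the heat kernel -/
noncomputable def k0 (d : ℕ) (z : E d) : ℂ := (Kr d : ℂ)⁻¹ * ee 0 z

/-- its derivative -/
noncomputable def k1 {d : ℕ} (j : Fin d) (z : E d) : ℂ := (Kr d : ℂ)⁻¹ * (-(1 / 2) * ((z j : ℂ) * ee 0 z))

/-- the symbol -/
noncomputable def ex {d : ℕ} (v : ℝ) (ξ : E d) : ℂ :=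
  ((Real.exp (-(4 * Real.pi ^ 2 * v * ‖ξ‖ ^ 2)) : ℝ) : ℂ)

theorem phase {d : ℕ} (v : ℝ) (z ξ : E d) :
    Complex.exp (((-(2 * Real.pi * ⟪Real.sqrt v • z, ξ⟫) : ℝ) : ℂ) * Complex.I) * ee 0 z =
      ee (Real.sqrt v • ξ) z := by
  unfold ee
  rw [← Complex.exp_add]
  congr 1
  have h1 : ⟪Real.sqrt v • z, ξ⟫ = ⟪Real.sqrt v • ξ, z⟫ := by
    rw [real_inner_smul_left, real_inner_smul_left, real_inner_comm]
  rw [h1, inner_zero_left]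
  push_cast
  ring

theorem gv {d : ℕ} {v : ℝ} (hv : 0 ≤ v) (ξ : E d) :
    Complex.exp (-(4 * Real.pi ^ 2 * ‖Real.sqrt v • ξ‖ ^ 2 : ℝ)) = ex v ξ := by
  unfold ex
  rw [Complex.ofReal_exp]
  congr 1
  rw [norm_smul, mul_pow, Real.norm_eq_abs, sq_abs, Real.sq_sqrt hv]
  push_cast
  ring

theorem Kr_ne (d : ℕ) : (Kr d : ℂ) ≠ 0 := by
  exact_mod_cast (Kr_pos d).ne'

theorem fk0 {d : ℕ} {v : ℝ} (hv : 0 ≤ v) (ξ : E d) :
    ∫ z : E d, Complex.exp (((-(2 * Real.pi * ⟪Real.sqrt v • z, ξ⟫) : ℝ) : ℂ) * Complex.I) *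
      k0 d z = ex v ξ := by
  have h1 : ∀ z : E d, Complex.exp (((-(2 * Real.pi * ⟪Real.sqrt v • z, ξ⟫) : ℝ) : ℂ) *
      Complex.I) * k0 d z = (Kr d : ℂ)⁻¹ * ee (Real.sqrt v • ξ) z := by
    intro z
    unfold k0
    rw [← phase]
    ring
  simp only [h1]
  rw [integral_const_mul, gau, ← mul_assoc, inv_mul_cancel₀ (Kr_ne d), one_mul]
  exact gv hv ξ

theorem fk1 {d : ℕ} {v : ℝ} (hv : 0 ≤ v) (j : Fin d) (ξ : E d) :
    ∫ z : E d, Complex.exp (((-(2 * Real.pi * ⟪Real.sqrt v • z, ξ⟫) : ℝ) : ℂ) * Complex.I) *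
      k1 j z = (Real.sqrt v : ℂ) * (((2 * Real.pi * ξ j : ℝ) : ℂ) * Complex.I * ex v ξ) := by
  have h1 : ∀ z : E d, Complex.exp (((-(2 * Real.pi * ⟪Real.sqrt v • z, ξ⟫) : ℝ) : ℂ) *
      Complex.I) * k1 j z = ((Kr d : ℂ)⁻¹ * -(1 / 2)) *
        ((z j : ℂ) * ee (Real.sqrt v • ξ) z) := by
    intro z
    unfold k1
    rw [← phase]
    ring
  simp only [h1]
  rw [integral_const_mul, gau1, gv hv]
  have h2 : ((Real.sqrt v • ξ) j : ℝ) = Real.sqrt v * ξ j := by simp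
  rw [h2]
  have h3 := Kr_ne d
  field_simp
  push_cast
  ring

/-- the bound of the kernels -/
noncomputable def P (d : ℕ) (z : E d) : ℝ := (Kr d)⁻¹ * ((1 + ‖z‖ ^ 2) * Real.exp (-(1 / 4) * ‖z‖ ^ 2))

theorem P_nonneg (d : ℕ) (z : E d) : 0 ≤ P d z := by
  unfold P
  have := Kr_pos d
  positivity

theorem norm_Kr (d : ℕ) : ‖((Kr d : ℂ))⁻¹‖ = (Kr d)⁻¹ := by
  rw [norm_inv, Complex.norm_real, Real.norm_eq_abs, abs_of_pos (Kr_pos d)]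

theorem k0_le (d : ℕ) (z : E d) : ‖k0 d z‖ ≤ P d z := by
  unfold k0 P
  rw [norm_mul, norm_Kr, norm_ee]
  have := Kr_pos d
  have h1 := Real.exp_pos (-(1 / 4) * ‖z‖ ^ 2)
  have h2 : Real.exp (-(1 / 4) * ‖z‖ ^ 2) ≤ (1 + ‖z‖ ^ 2) * Real.exp (-(1 / 4) * ‖z‖ ^ 2) := by
    nlinarith [sq_nonneg ‖z‖, mul_nonneg (sq_nonneg ‖z‖) h1.le]
  gcongr

theorem k1_le {d : ℕ} (j : Fin d) (z : E d) : ‖k1 j z‖ ≤ P d z := by
  unfold k1 P
  rw [norm_mul, norm_Kr, norm_mul, norm_mul, norm_ee]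
  have := Kr_pos d
  have h1 := Real.exp_pos (-(1 / 4) * ‖z‖ ^ 2)
  have h3 : ‖(-(1 / 2) : ℂ)‖ = 1 / 2 := by
    rw [norm_neg]
    norm_num
  have h4 : ‖((z j : ℝ) : ℂ)‖ ≤ ‖z‖ := by
    rw [Complex.norm_real]
    exact PiLp.norm_apply_le z j
  rw [h3]
  have h5 : 1 / 2 * (‖((z j : ℝ) : ℂ)‖ * Real.exp (-(1 / 4) * ‖z‖ ^ 2)) ≤
      (1 + ‖z‖ ^ 2) * Real.exp (-(1 / 4) * ‖z‖ ^ 2) := by
    rw [← mul_assoc]
    refine mul_le_mul_of_nonneg_right ?_ h1.le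
    nlinarith [sq_nonneg (‖z‖ - 1), norm_nonneg z]
  gcongr

theorem cont_k0 (d : ℕ) : Continuous (k0 d) := by
  unfold k0
  exact continuous_const.mul (cont_ee _)

theorem cont_k1 {d : ℕ} (j : Fin d) : Continuous (k1 j : E d → ℂ) := by
  unfold k1
  have := cont_ee (0 : E d)
  fun_prop

theorem cont_P (d : ℕ) : Continuous (P d) := by
  unfold P
  fun_prop

theorem int_P (d n : ℕ) : Integrable (fun z : E d => P d z * (1 + ‖z‖ ^ 2) ^ n) := by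
  have h0 := Kr_pos d
  refine ((int_exp (d := d) (b := 1 / 8) (by norm_num)).const_mul
    ((Kr d)⁻¹ * ((8 : ℝ) ^ (n + 1) * (n + 1).factorial * Real.exp (1 / 8)))).mono' ?_ ?_
  · refine Continuous.aestronglyMeasurable ?_
    have := cont_P d
    fun_prop
  · refine Filter.Eventually.of_forall fun z => ?_
    rw [Real.norm_eq_abs, abs_of_nonneg (mul_nonneg (P_nonneg d z) (by positivity))]
    unfold P
    have h1 : (1 + ‖z‖ ^ 2) ^ (n + 1) ≤ (8 : ℝ) ^ (n + 1) * (n + 1).factorial *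
        (Real.exp (1 / 8) * Real.exp (1 / 8 * ‖z‖ ^ 2)) := by
      have h2 := Real.pow_div_factorial_le_exp ((1 + ‖z‖ ^ 2) / 8) (by positivity) (n + 1)
      rw [div_le_iff₀ (by positivity), div_pow, div_le_iff₀ (by positivity)] at h2
      refine h2.trans (le_of_eq ?_)
      rw [← Real.exp_add]
      have : (1 + ‖z‖ ^ 2) / 8 = 1 / 8 + 1 / 8 * ‖z‖ ^ 2 := by ring
      rw [this]
      ring
    have h4 : Real.exp (1 / 8 * ‖z‖ ^ 2) * Real.exp (-(1 / 4) * ‖z‖ ^ 2) =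
        Real.exp (-(1 / 8) * ‖z‖ ^ 2) := by
      rw [← Real.exp_add]
      congr 1
      ring
    have h5 := Real.exp_pos (-(1 / 4) * ‖z‖ ^ 2)
    calc (Kr d)⁻¹ * ((1 + ‖z‖ ^ 2) * Real.exp (-(1 / 4) * ‖z‖ ^ 2)) * (1 + ‖z‖ ^ 2) ^ n
        = (Kr d)⁻¹ * ((1 + ‖z‖ ^ 2) ^ (n + 1) * Real.exp (-(1 / 4) * ‖z‖ ^ 2)) := by ring
      _ ≤ (Kr d)⁻¹ * (((8 : ℝ) ^ (n + 1) * (n + 1).factorial *
        (Real.exp (1 / 8) * Real.exp (1 / 8 * ‖z‖ ^ 2))) * Real.exp (-(1 / 4) * ‖z‖ ^ 2)) := by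
          gcongr
      _ = (Kr d)⁻¹ * ((8 : ℝ) ^ (n + 1) * (n + 1).factorial * Real.exp (1 / 8)) *
        (Real.exp (1 / 8 * ‖z‖ ^ 2) * Real.exp (-(1 / 4) * ‖z‖ ^ 2)) := by ring
      _ = _ := by rw [h4]

/-- the constant -/
noncomputable def BB (d M : ℕ) : ℝ≥0∞ := ∫⁻ z : E d, ENNReal.ofReal (P d z * (1 + ‖z‖ ^ 2) ^ M)

theorem BB_top (d M : ℕ) : BB d M < ∞ := (int_P d M).lintegral_lt_top

theorem bd0 {d : ℕ} (M : ℕ) (k : E d → ℂ) (hk : ∀ z, ‖k z‖ ≤ P d z) :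
    ∫⁻ z, ‖k z‖ₑ * ENNReal.ofReal ((1 + ‖z‖ ^ 2) ^ M) ≤ BB d M := by
  unfold BB
  refine lintegral_mono fun z => ?_
  rw [ENNReal.ofReal_mul (P_nonneg d z), ← ofReal_norm]
  gcongr
  exact hk z

theorem bd1 {d : ℕ} (M : ℕ) (k : E d → ℂ) (hk : ∀ z, ‖k z‖ ≤ P d z) :
    ∫⁻ z, ‖k z‖ₑ ≤ BB d M := by
  refine le_trans ?_ (bd0 M k hk)
  refine lintegral_mono fun z => ?_
  have h1 : (1 : ℝ≥0∞) ≤ ENNReal.ofReal ((1 + ‖z‖ ^ 2) ^ M) := by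
    rw [← ENNReal.ofReal_one]
    refine ENNReal.ofReal_le_ofReal (one_le_pow₀ ?_)
    have := sq_nonneg ‖z‖
    linarith
  calc ‖k z‖ₑ = ‖k z‖ₑ * 1 := (mul_one _).symm
    _ ≤ _ := by gcongr

theorem int_k {d : ℕ} (k : E d → ℂ) (hc : Continuous k) (hk : ∀ z, ‖k z‖ ≤ P d z) :
    Integrable k := by
  refine (int_P d 0).mono' hc.aestronglyMeasurable (Filter.Eventually.of_forall fun z => ?_)
  rw [pow_zero, mul_one]
  exact hk z

theorem meas_k {d : ℕ} : Measurable (fun z : E d => 1 + ‖z‖ ^ 2) := by fun_prop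

/-- the first bound -/
theorem heat {d : ℕ} (M : ℕ) (g h : 𝓢(E d, ℂ)) (v : ℝ) (hv : 0 < v)
    (hh : ∀ ξ, 𝓕 (h : E d → ℂ) ξ = ex v ξ * 𝓕 (g : E d → ℂ) ξ) (x : E d) :
    nrg M h x ≤ BB d M * (BB d M * ENNReal.ofReal (2 ^ M * (1 + v) ^ M)) * nrg M g x := by
  have hy : Measurable (fun z : E d => Real.sqrt v • z) := by fun_prop
  have h1 := avg (volume : Measure (E d)) (fun z : E d => Real.sqrt v • z) (k0 d) hy
    (cont_k0 d).measurable g h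
    (rep volume _ _ hy (int_k _ (cont_k0 d) (k0_le d)) g h (ex v) (fk0 hv.le) hh) M v hv.le
    (fun z => 1 + ‖z‖ ^ 2) meas_k (fun z => by
      rw [norm_smul, mul_pow, Real.norm_eq_abs, sq_abs, Real.sq_sqrt hv.le]
      nlinarith [sq_nonneg ‖z‖]) x
  refine h1.trans ?_
  gcongr
  · exact bd1 M _ (k0_le d)
  · exact bd0 M _ (k0_le d)

theorem sq_ne {v : ℝ} (hv : 0 < v) : (Real.sqrt v : ℂ) ≠ 0 := by
  exact_mod_cast (Real.sqrt_pos.2 hv).ne'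

theorem enorm_sq {v : ℝ} (hv : 0 < v) :
    ‖((Real.sqrt v : ℂ))⁻¹‖ₑ = ENNReal.ofReal ((Real.sqrt v)⁻¹) := by
  rw [← ofReal_norm, norm_inv, Complex.norm_real, Real.norm_eq_abs,
    abs_of_pos (Real.sqrt_pos.2 hv)]

/-- the second bound -/
theorem heat1 {d : ℕ} (M : ℕ) (g h : 𝓢(E d, ℂ)) (v : ℝ) (hv : 0 < v)
    (hh : ∀ ξ, 𝓕 (h : E d → ℂ) ξ = ex v ξ * 𝓕 (g : E d → ℂ) ξ) (j : Fin d) (x : E d) :
    nrg M (dj j h) x ≤ (ENNReal.ofReal ((Real.sqrt v)⁻¹) * BB d M) *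
      ((ENNReal.ofReal ((Real.sqrt v)⁻¹) * BB d M) * ENNReal.ofReal (2 ^ M * (1 + v) ^ M)) *
        nrg M g x := by
  have hy : Measurable (fun z : E d => Real.sqrt v • z) := by fun_prop
  have hk : Measurable (fun z : E d => (Real.sqrt v : ℂ)⁻¹ * k1 j z) :=
    ((cont_k1 j).measurable).const_mul _
  have hi : Integrable (fun z : E d => (Real.sqrt v : ℂ)⁻¹ * k1 j z) :=
    (int_k _ (cont_k1 j) (k1_le j)).const_mul _
  have hF : ∀ ξ, 𝓕 (dj j h : E d → ℂ) ξ =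
      (((2 * Real.pi * ξ j : ℝ) : ℂ) * Complex.I * ex v ξ) * 𝓕 (g : E d → ℂ) ξ := by
    intro ξ
    rw [four_dj, hh]
    ring
  have hm : ∀ ξ : E d, ∫ z : E d, Complex.exp (((-(2 * Real.pi * ⟪Real.sqrt v • z, ξ⟫) : ℝ) : ℂ) *
      Complex.I) * ((Real.sqrt v : ℂ)⁻¹ * k1 j z) =
      ((2 * Real.pi * ξ j : ℝ) : ℂ) * Complex.I * ex v ξ := by
    intro ξ
    have h2 : ∀ z : E d, Complex.exp (((-(2 * Real.pi * ⟪Real.sqrt v • z, ξ⟫) : ℝ) : ℂ) *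
      Complex.I) * ((Real.sqrt v : ℂ)⁻¹ * k1 j z) = (Real.sqrt v : ℂ)⁻¹ *
        (Complex.exp (((-(2 * Real.pi * ⟪Real.sqrt v • z, ξ⟫) : ℝ) : ℂ) *
      Complex.I) * k1 j z) := fun z => by ring
    simp only [h2]
    rw [integral_const_mul, fk1 hv.le, ← mul_assoc, inv_mul_cancel₀ (sq_ne hv), one_mul]
  have h1 := avg (volume : Measure (E d)) (fun z : E d => Real.sqrt v • z) _ hy hk g (dj j h)
    (rep volume _ _ hy hi g (dj j h) _ hm hF) M v hv.le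
    (fun z => 1 + ‖z‖ ^ 2) meas_k (fun z => by
      rw [norm_smul, mul_pow, Real.norm_eq_abs, sq_abs, Real.sq_sqrt hv.le]
      nlinarith [sq_nonneg ‖z‖]) x
  refine h1.trans ?_
  have e1 : ∀ z : E d, ‖(Real.sqrt v : ℂ)⁻¹ * k1 j z‖ₑ =
      ENNReal.ofReal ((Real.sqrt v)⁻¹) * ‖k1 j z‖ₑ := fun z => by
    rw [enorm_mul, enorm_sq hv]
  simp only [e1, mul_assoc]
  rw [lintegral_const_mul' _ _ ENNReal.ofReal_ne_top,
    lintegral_const_mul' _ _ ENNReal.ofReal_ne_top]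
  simp only [mul_assoc]
  gcongr
  · exact bd1 M _ (k1_le j)
  · exact bd0 M _ (k1_le j)

/-- the third bound -/
theorem heat2 {d : ℕ} (M : ℕ) (g h : 𝓢(E d, ℂ)) (v : ℝ) (hv : 0 < v)
    (hh : ∀ ξ, 𝓕 (h : E d → ℂ) ξ = ex v ξ * 𝓕 (g : E d → ℂ) ξ) (i j : Fin d) (x : E d) :
    nrg M (dj i (dj j h)) x ≤ (ENNReal.ofReal ((Real.sqrt (v / 2))⁻¹) * BB d M) ^ 2 *
      ((ENNReal.ofReal ((Real.sqrt (v / 2))⁻¹) * BB d M) ^ 2 *
        ENNReal.ofReal (2 ^ M * (1 + v) ^ M)) * nrg M g x := by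
  have hv2 : 0 < v / 2 := by positivity
  have hy : Measurable (fun z : E d × E d => Real.sqrt (v / 2) • (z.1 + z.2)) := by fun_prop
  have hk1 : ∀ l : Fin d, Measurable (fun z : E d => (Real.sqrt (v / 2) : ℂ)⁻¹ * k1 l z) :=
    fun l => ((cont_k1 l).measurable).const_mul _
  have hi1 : ∀ l : Fin d, Integrable (fun z : E d => (Real.sqrt (v / 2) : ℂ)⁻¹ * k1 l z) :=
    fun l => (int_k _ (cont_k1 l) (k1_le l)).const_mul _
  have hk : Measurable (fun z : E d × E d => ((Real.sqrt (v / 2) : ℂ)⁻¹ * k1 i z.1) *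
      ((Real.sqrt (v / 2) : ℂ)⁻¹ * k1 j z.2)) :=
    ((hk1 i).comp measurable_fst).mul ((hk1 j).comp measurable_snd)
  have hi : Integrable (fun z : E d × E d => ((Real.sqrt (v / 2) : ℂ)⁻¹ * k1 i z.1) *
      ((Real.sqrt (v / 2) : ℂ)⁻¹ * k1 j z.2)) := (hi1 i).mul_prod (hi1 j)
  have hF : ∀ ξ, 𝓕 (dj i (dj j h) : E d → ℂ) ξ =
      ((((2 * Real.pi * ξ i : ℝ) : ℂ) * Complex.I * ex (v / 2) ξ) *
        (((2 * Real.pi * ξ j : ℝ) : ℂ) * Complex.I * ex (v / 2) ξ)) * 𝓕 (g : E d → ℂ) ξ := by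
    intro ξ
    rw [four_dj, four_dj, hh]
    have e1 : ex v ξ = ex (v / 2) ξ * ex (v / 2) ξ := by
      unfold ex
      rw [← Complex.ofReal_mul, ← Real.exp_add]
      congr 2
      ring
    rw [e1]
    ring
  have hm1 : ∀ (l : Fin d) (ξ : E d), ∫ z : E d, Complex.exp (((-(2 * Real.pi *
      ⟪Real.sqrt (v / 2) • z, ξ⟫) : ℝ) : ℂ) * Complex.I) * ((Real.sqrt (v / 2) : ℂ)⁻¹ * k1 l z) =
      ((2 * Real.pi * ξ l : ℝ) : ℂ) * Complex.I * ex (v / 2) ξ := by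
    intro l ξ
    have h2 : ∀ z : E d, Complex.exp (((-(2 * Real.pi * ⟪Real.sqrt (v / 2) • z, ξ⟫) : ℝ) : ℂ) *
      Complex.I) * ((Real.sqrt (v / 2) : ℂ)⁻¹ * k1 l z) = (Real.sqrt (v / 2) : ℂ)⁻¹ *
        (Complex.exp (((-(2 * Real.pi * ⟪Real.sqrt (v / 2) • z, ξ⟫) : ℝ) : ℂ) *
      Complex.I) * k1 l z) := fun z => by ring
    simp only [h2]
    rw [integral_const_mul, fk1 hv2.le, ← mul_assoc, inv_mul_cancel₀ (sq_ne hv2), one_mul]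
  have hm : ∀ ξ : E d, ∫ z : E d × E d, Complex.exp (((-(2 * Real.pi *
      ⟪Real.sqrt (v / 2) • (z.1 + z.2), ξ⟫) : ℝ) : ℂ) * Complex.I) *
      (((Real.sqrt (v / 2) : ℂ)⁻¹ * k1 i z.1) * ((Real.sqrt (v / 2) : ℂ)⁻¹ * k1 j z.2)) =
      (((2 * Real.pi * ξ i : ℝ) : ℂ) * Complex.I * ex (v / 2) ξ) *
        (((2 * Real.pi * ξ j : ℝ) : ℂ) * Complex.I * ex (v / 2) ξ) := by
    intro ξ
    rw [← hm1 i ξ, ← hm1 j ξ, ← integral_prod_mul]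
    refine integral_congr_ae (Filter.Eventually.of_forall fun z => ?_)
    have e1 : Complex.exp (((-(2 * Real.pi * ⟪Real.sqrt (v / 2) • (z.1 + z.2), ξ⟫) : ℝ) : ℂ) *
        Complex.I) = Complex.exp (((-(2 * Real.pi * ⟪Real.sqrt (v / 2) • z.1, ξ⟫) : ℝ) : ℂ) *
        Complex.I) * Complex.exp (((-(2 * Real.pi * ⟪Real.sqrt (v / 2) • z.2, ξ⟫) : ℝ) : ℂ) *
        Complex.I) := by
      rw [← Complex.exp_add, smul_add, inner_add_left]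
      congr 1
      push_cast
      ring
    simp only [e1]
    ring
  have h1 := avg (volume : Measure (E d × E d))
    (fun z : E d × E d => Real.sqrt (v / 2) • (z.1 + z.2)) _ hy hk g (dj i (dj j h))
    (rep volume _ _ hy hi g (dj i (dj j h)) _ hm hF) M v hv.le
    (fun z => (1 + ‖z.1‖ ^ 2) * (1 + ‖z.2‖ ^ 2)) (by fun_prop) (fun z => by
      rw [norm_smul, mul_pow, Real.norm_eq_abs, sq_abs, Real.sq_sqrt hv2.le]
      have t1 : ‖z.1 + z.2‖ ^ 2 ≤ 2 * (‖z.1‖ ^ 2 + ‖z.2‖ ^ 2) := by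
        have t2 := norm_add_le z.1 z.2
        have t3 := norm_nonneg (z.1 + z.2)
        nlinarith [sq_nonneg (‖z.1‖ - ‖z.2‖), norm_nonneg z.1, norm_nonneg z.2]
      have t4 := mul_le_mul_of_nonneg_left t1 hv2.le
      have t5 : 0 ≤ ‖z.1‖ ^ 2 * ‖z.2‖ ^ 2 := by positivity
      have t6 : 0 ≤ v * (‖z.1‖ ^ 2 * ‖z.2‖ ^ 2) := by positivity
      nlinarith [sq_nonneg ‖z.1‖, sq_nonneg ‖z.2‖]) x
  refine h1.trans ?_
  have e1 : ∀ z : E d × E d, ‖((Real.sqrt (v / 2) : ℂ)⁻¹ * k1 i z.1) *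
      ((Real.sqrt (v / 2) : ℂ)⁻¹ * k1 j z.2)‖ₑ =
      (ENNReal.ofReal ((Real.sqrt (v / 2))⁻¹) * ‖k1 i z.1‖ₑ) *
        (ENNReal.ofReal ((Real.sqrt (v / 2))⁻¹) * ‖k1 j z.2‖ₑ) := fun z => by
    rw [enorm_mul, enorm_mul, enorm_mul, enorm_sq hv2]
  have hne : ∀ l : Fin d, AEMeasurable (fun z : E d =>
      ENNReal.ofReal ((Real.sqrt (v / 2))⁻¹) * ‖k1 l z‖ₑ) :=
    fun l => (((cont_k1 l).measurable.enorm).const_mul _).aemeasurable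
  have hme : Measurable (fun z : E d => ENNReal.ofReal ((1 + ‖z‖ ^ 2) ^ M)) :=
    ENNReal.measurable_ofReal.comp (meas_k.pow_const M)
  have hne2 : ∀ l : Fin d, AEMeasurable (fun z : E d =>
      ENNReal.ofReal ((Real.sqrt (v / 2))⁻¹) * ‖k1 l z‖ₑ * ENNReal.ofReal ((1 + ‖z‖ ^ 2) ^ M)) :=
    fun l => ((((cont_k1 l).measurable.enorm).const_mul _).mul hme).aemeasurable
  have b1 : ∫⁻ z : E d × E d, ‖((Real.sqrt (v / 2) : ℂ)⁻¹ * k1 i z.1) *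
      ((Real.sqrt (v / 2) : ℂ)⁻¹ * k1 j z.2)‖ₑ ≤
      (ENNReal.ofReal ((Real.sqrt (v / 2))⁻¹) * BB d M) ^ 2 := by
    simp only [e1]
    rw [Measure.volume_eq_prod, lintegral_prod_mul (hne i) (hne j), sq,
      lintegral_const_mul' _ _ ENNReal.ofReal_ne_top,
      lintegral_const_mul' _ _ ENNReal.ofReal_ne_top]
    gcongr
    · exact bd1 M _ (k1_le i)
    · exact bd1 M _ (k1_le j)
  have b2 : ∫⁻ z : E d × E d, ‖((Real.sqrt (v / 2) : ℂ)⁻¹ * k1 i z.1) *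
      ((Real.sqrt (v / 2) : ℂ)⁻¹ * k1 j z.2)‖ₑ *
        ENNReal.ofReal (((1 + ‖z.1‖ ^ 2) * (1 + ‖z.2‖ ^ 2)) ^ M) ≤
      (ENNReal.ofReal ((Real.sqrt (v / 2))⁻¹) * BB d M) ^ 2 := by
    have e2 : ∀ z : E d × E d, ‖((Real.sqrt (v / 2) : ℂ)⁻¹ * k1 i z.1) *
      ((Real.sqrt (v / 2) : ℂ)⁻¹ * k1 j z.2)‖ₑ *
        ENNReal.ofReal (((1 + ‖z.1‖ ^ 2) * (1 + ‖z.2‖ ^ 2)) ^ M) =
      (ENNReal.ofReal ((Real.sqrt (v / 2))⁻¹) * ‖k1 i z.1‖ₑ *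
        ENNReal.ofReal ((1 + ‖z.1‖ ^ 2) ^ M)) *
        (ENNReal.ofReal ((Real.sqrt (v / 2))⁻¹) * ‖k1 j z.2‖ₑ *
        ENNReal.ofReal ((1 + ‖z.2‖ ^ 2) ^ M)) := by
      intro z
      rw [e1, mul_pow, ENNReal.ofReal_mul (by positivity)]
      ring
    simp only [e2]
    rw [Measure.volume_eq_prod, lintegral_prod_mul (hne2 i) (hne2 j), sq]
    simp only [mul_assoc]
    rw [lintegral_const_mul' _ _ ENNReal.ofReal_ne_top,
      lintegral_const_mul' _ _ ENNReal.ofReal_ne_top]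
    simp only [← mul_assoc]
    gcongr
    · exact bd0 M _ (k1_le i)
    · exact bd0 M _ (k1_le j)
  gcongr

theorem t_hn : Pool.Agent.N303.LS.S_HN := by
  intro d M
  have hB := BB_top d M
  set b := (BB d M).toReal with hb
  have hb0 : 0 ≤ b := ENNReal.toReal_nonneg
  have hBb : BB d M = ENNReal.ofReal b := (ENNReal.ofReal_toReal hB.ne).symm
  refine ⟨2 ^ M * (b ^ 2 + 4 * b ^ 4) + 1, by positivity, fun g h v hv hh x => ⟨?_, ?_, ?_⟩⟩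
  · refine (heat M g h v hv hh x).trans ?_
    gcongr
    rw [hBb, ← ENNReal.ofReal_mul hb0, ← ENNReal.ofReal_mul hb0]
    refine ENNReal.ofReal_le_ofReal ?_
    have h1 : b * (b * (2 ^ M * (1 + v) ^ M)) = (2 ^ M * b ^ 2) * (1 + v) ^ M := by ring
    rw [h1]
    refine mul_le_mul_of_nonneg_right ?_ (by positivity)
    have : 0 ≤ (2 : ℝ) ^ M * b ^ 4 := by positivity
    nlinarith
  · intro j
    refine (heat1 M g h v hv hh j x).trans ?_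
    gcongr
    rw [hBb, ← ENNReal.ofReal_mul (by positivity), ← ENNReal.ofReal_mul (by positivity),
      ← ENNReal.ofReal_mul (by positivity)]
    refine ENNReal.ofReal_le_ofReal ?_
    have h0 : (Real.sqrt v)⁻¹ * (Real.sqrt v)⁻¹ = v⁻¹ := by
      rw [← mul_inv, Real.mul_self_sqrt hv.le]
    have h1 : (Real.sqrt v)⁻¹ * b * ((Real.sqrt v)⁻¹ * b * (2 ^ M * (1 + v) ^ M)) =
        (2 ^ M * b ^ 2) * (1 + v) ^ M * ((Real.sqrt v)⁻¹ * (Real.sqrt v)⁻¹) := by ring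
    rw [h1, h0]
    have h2 : (2 : ℝ) ^ M * b ^ 2 ≤ 2 ^ M * (b ^ 2 + 4 * b ^ 4) + 1 := by
      have : 0 ≤ (2 : ℝ) ^ M * b ^ 4 := by positivity
      nlinarith
    gcongr
  · intro i j
    refine (heat2 M g h v hv hh i j x).trans ?_
    gcongr
    have hs : 0 ≤ (Real.sqrt (v / 2))⁻¹ * b := by positivity
    rw [hBb, ← ENNReal.ofReal_mul (by positivity), ← ENNReal.ofReal_pow hs,
      ← ENNReal.ofReal_mul (by positivity), ← ENNReal.ofReal_mul (by positivity)]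
    refine ENNReal.ofReal_le_ofReal ?_
    have h0 : ((Real.sqrt (v / 2))⁻¹) ^ 2 = 2 * v⁻¹ := by
      rw [inv_pow, Real.sq_sqrt (by positivity)]
      field_simp
    have h1 : ((Real.sqrt (v / 2))⁻¹ * b) ^ 2 * (((Real.sqrt (v / 2))⁻¹ * b) ^ 2 *
        (2 ^ M * (1 + v) ^ M)) = (2 ^ M * b ^ 4) * (1 + v) ^ M *
          (((Real.sqrt (v / 2))⁻¹) ^ 2 * ((Real.sqrt (v / 2))⁻¹) ^ 2) := by ring
    rw [h1, h0]
    have h3 : 2 ^ M * b ^ 4 * (1 + v) ^ M * (2 * v⁻¹ * (2 * v⁻¹)) =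
        (2 ^ M * (4 * b ^ 4)) * (1 + v) ^ M * (v ^ 2)⁻¹ := by
      field_simp
      ring
    rw [h3]
    have h2 : (2 : ℝ) ^ M * (4 * b ^ 4) ≤ 2 ^ M * (b ^ 2 + 4 * b ^ 4) + 1 := by
      have : 0 ≤ (2 : ℝ) ^ M * b ^ 2 := by positivity
      nlinarith
    gcongr

end Pool.Agent.N951.LS
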